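import Pool.Agent.N839.VS.Core

/-!
# EK/7, part 1: interpolation in both variables, and the terms outside the window

Adapted from `Pool.Agent.N839.VS.{Base, Tails, Core}`.
-/

set_option autoImplicit false

namespace Pool.Agent.N490.EK

open Filter Finset Topology Metric
open Pool.Agent.W711.HT Pool.Agent.N561
open Pool.Agent.N839.VS (CR OR OR_sub_CR isOpen_OR isCompact_CR isOpen_DA unif_seq cont_of_unif
  isOpen_strip mem_strip Sd_succ Rp_succ absorb tend_floor tend_ceil)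
open scoped Real

/-- the domain of the variables -/
def D (w : ℂ) : Prop := |w.re| < 21 / 20 ∧ |w.im| < 1 / 4

/-- parameters -/
def PA (b : ℝ) : Set (ℂ × ℂ) := {p | 2 * π * b + |p.1.re| < π ∧ 2 * π * b + |p.2.re| < π}

theorem mem_PA {p : ℂ × ℂ} (h1 : D p.1) (h2 : D p.2) : p ∈ PA (33 / 100) := by
  have := Real.pi_gt_d2
  have := h1.1
  have := h2.1
  constructor
  · linarith
  · linarith

theorem memA {a b h : ℝ} (ha : 0 < a) {δ : ℂ} (hδ : δ ∈ CR a b h) {w : ℂ}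
    (hw : 2 * π * b + |w.re| < π) : (δ, w) ∈ DA := by
  have hπ := Real.pi_pos
  have h1 : |δ.re| ≤ b := by
    rw [abs_of_pos (ha.trans_le hδ.1)]; exact hδ.2.1
  have h2 : 2 * π * |δ.re| ≤ 2 * π * b := by gcongr
  show 2 * π * |δ.re| + |w.re| < π
  linarith

/-- the data of the interpolation -/
structure Dt where
  r : ℕ → ℂ × ℂ → ℂ
  s : ℕ → ℂ → ℂ
  d2 : ∀ N : ℕ, 1 ≤ N → DifferentiableOn ℂ (r N) DA
  d3 : ∀ N : ℕ, 1 ≤ N → DifferentiableOn ℂ (s N) {δ : ℂ | 0 < δ.re ∧ δ.re < 1}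
  e2 : ∀ N d : ℕ, 1 ≤ N → ∀ ψ : ℂ, ((d : ℂ) / N, ψ) ∈ DA →
    Rp N d ψ = Complex.exp (N * r N ((d : ℂ) / N, ψ))
  e3 : ∀ N d : ℕ, 1 ≤ d → d < N → (Sd N d : ℂ) = Complex.exp (N * s N ((d : ℂ) / N))
  u2 : ∀ K ⊆ DA, IsCompact K → TendstoUniformlyOn r (fun p => RR p.1 p.2) atTop K
  u3 : ∀ K ⊆ {δ : ℂ | 0 < δ.re ∧ δ.re < 1}, IsCompact K →
    TendstoUniformlyOn s (fun δ => LS (π * δ) / π) atTop K

theorem exists_Dt (hL : S_LAPL) : Nonempty Dt := by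
  obtain ⟨r₂, s, b1, b2, b3, b4, b5, b6⟩ := hL
  exact ⟨⟨r₂, s, b1, b2, b3, b4, b5, b6⟩⟩

variable (T : Dt)

include T in
theorem cont_DA : ContinuousOn (fun p : ℂ × ℂ => RR p.1 p.2) DA :=
  cont_of_unif isOpen_DA (fun N hN => (T.d2 N hN).continuousOn) T.u2

/-- the functions of the sum -/
noncomputable def qf (ψ φ : ℂ) (N : ℕ) (δ : ℂ) : ℂ :=
  T.r N (δ, ψ) + T.r N (δ, φ) - 4 * T.s N δ

theorem qf_diff {a b h : ℝ} (ha : 0 < a) (hb : b < 1 / 2) {p : ℂ × ℂ}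
    (hp : p ∈ PA b) {N : ℕ} (hN : 1 ≤ N) :
    DifferentiableOn ℂ (qf T p.1 p.2 N) (CR a b h) := by
  unfold qf
  have h1 : DifferentiableOn ℂ (fun δ : ℂ => T.r N (δ, p.1)) (CR a b h) :=
    (T.d2 N hN).comp (by fun_prop) fun δ hδ => memA ha hδ hp.1
  have h2 : DifferentiableOn ℂ (fun δ : ℂ => T.r N (δ, p.2)) (CR a b h) :=
    (T.d2 N hN).comp (by fun_prop) fun δ hδ => memA ha hδ hp.2
  have h3 : DifferentiableOn ℂ (fun δ : ℂ => T.s N δ) (CR a b h) :=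
    (T.d3 N hN).mono fun δ hδ => mem_strip ha hb hδ
  exact (h1.add h2).sub (h3.const_mul 4)

theorem qf_unif {a b h : ℝ} (ha : 0 < a) (hb : b < 1 / 2) {p : ℂ × ℂ}
    (hp : p ∈ PA b) {ψ φ : ℕ → ℂ} (hψ : Tendsto ψ atTop (𝓝 p.1))
    (hφ : Tendsto φ atTop (𝓝 p.2)) :
    TendstoUniformlyOn (fun N => qf T (ψ N) (φ N) N) (TH p.1 p.2) atTop (CR a b h) := by
  have h1 := unif_seq isOpen_DA (cont_DA T) T.u2 (isCompact_CR a b h) hψ
    fun δ hδ => memA ha hδ hp.1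
  have h2 := unif_seq isOpen_DA (cont_DA T) T.u2 (isCompact_CR a b h) hφ
    fun δ hδ => memA ha hδ hp.2
  have h3 := T.u3 (CR a b h) (fun δ hδ => mem_strip ha hb hδ) (isCompact_CR a b h)
  have h4 : TendstoUniformlyOn (fun N δ => 4 * T.s N δ) (fun δ => 4 * (LS (π * δ) / π)) atTop
      (CR a b h) := by
    have := (uniformContinuous_const_smul (4 : ℂ)).comp_tendstoUniformlyOn h3
    simpa [Function.comp_def] using this
  exact (h1.add h2).sub h4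

include T in
theorem TH_diff {a b h : ℝ} (ha : 0 < a) (hb : b < 1 / 2) {p : ℂ × ℂ}
    (hp : p ∈ PA b) : DifferentiableOn ℂ (TH p.1 p.2) (OR a b h) := by
  have h1 := (qf_unif T ha hb hp (h := h) (ψ := fun _ => p.1) (φ := fun _ => p.2)
    tendsto_const_nhds tendsto_const_nhds).mono (OR_sub_CR a b h)
  refine h1.tendstoLocallyUniformlyOn.differentiableOn ?_ (isOpen_OR a b h)
  exact Filter.eventually_atTop.2 ⟨1, fun N hN =>
    (qf_diff T ha hb hp hN).mono (OR_sub_CR a b h)⟩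

/-- the terms of the sum -/
theorem term_eq {a b h : ℝ} (ha : 0 < a) (hb : b < 1 / 2) {p : ℂ × ℂ}
    (hp : p ∈ PA b) {N d : ℕ} (hN : 1 ≤ N) (hd : ((d : ℂ) / N) ∈ CR a b h) :
    Rp N d p.1 * Rp N d p.2 / (Sd N d : ℂ) ^ 4 =
      Complex.exp (N * qf T p.1 p.2 N ((d : ℂ) / N)) := by
  have hN' : (0 : ℝ) < N := by exact_mod_cast hN
  have hre : ((d : ℂ) / N).re = (d : ℝ) / N := by
    rw [show ((d : ℂ) / N) = (((d : ℝ) / N : ℝ) : ℂ) by push_cast; rfl, Complex.ofReal_re]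
  have hd1 : 1 ≤ d := by
    have h1 := ha.trans_le hd.1
    rw [hre] at h1
    have h2 : (0 : ℝ) < d := by
      by_contra hcon
      have h3 : (d : ℝ) = 0 := le_antisymm (not_lt.1 hcon) (Nat.cast_nonneg d)
      rw [h3, zero_div] at h1
      exact lt_irrefl _ h1
    exact_mod_cast h2
  have hd2 : d < N := by
    have h1 := hd.2.1
    rw [hre, div_le_iff₀ hN'] at h1
    have h2 : (d : ℝ) < N := by nlinarith
    exact_mod_cast h2
  rw [T.e2 N d hN p.1 (memA ha hd hp.1), T.e2 N d hN p.2 (memA ha hd hp.2),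
    T.e3 N d hd1 hd2, ← Complex.exp_add, ← Complex.exp_nat_mul, ← Complex.exp_sub]
  unfold qf
  congr 1
  push_cast
  ring

/-! ### The factors -/

theorem cos_re' (z : ℂ) : (Complex.cos z).re = Real.cos z.re * Real.cosh z.im := by
  rw [Complex.cos_eq, ← Complex.ofReal_cos, ← Complex.ofReal_cosh, ← Complex.ofReal_sin,
    ← Complex.ofReal_sinh]
  simp only [Complex.sub_re, Complex.mul_re, Complex.mul_im, Complex.ofReal_re,
    Complex.ofReal_im, Complex.I_re, Complex.I_im]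
  ring

theorem cos_im' (z : ℂ) : (Complex.cos z).im = -(Real.sin z.re * Real.sinh z.im) := by
  rw [Complex.cos_eq, ← Complex.ofReal_cos, ← Complex.ofReal_cosh, ← Complex.ofReal_sin,
    ← Complex.ofReal_sinh]
  simp only [Complex.sub_im, Complex.mul_re, Complex.mul_im, Complex.ofReal_re,
    Complex.ofReal_im, Complex.I_re, Complex.I_im]
  ring

theorem cosh_bd {y : ℝ} (hy : |y| ≤ 1 / 4) : 1 ≤ Real.cosh y ∧ Real.cosh y ≤ 26 / 25 := by
  refine ⟨Real.one_le_cosh y, ?_⟩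
  refine (Real.cosh_le_exp_half_sq y).trans ?_
  have h1 : y ^ 2 / 2 ≤ 1 / 32 := by
    have := abs_le.1 hy
    nlinarith [sq_abs y, abs_nonneg y]
  refine (Real.exp_le_exp.2 h1).trans ?_
  refine (Real.exp_bound_div_one_sub_of_interval (by norm_num) (by norm_num)).trans ?_
  norm_num

theorem cos_bd {x : ℝ} (hx : |x| ≤ 21 / 20) : 11 / 25 ≤ Real.cos x := by
  have h1 := Real.one_sub_sq_div_two_le_cos (x := x)
  have h2 : x ^ 2 ≤ (21 / 20) ^ 2 := by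
    rw [← sq_abs x]
    exact pow_le_pow_left₀ (abs_nonneg x) hx 2
  linarith

/-- lower bound of a factor below the window -/
theorem fac_low {w : ℂ} (hw : D w) {t : ℝ} (ht : |t| ≤ 1 / 2) :
    1 ≤ ‖2 * Complex.cos w + 2 * (Real.cos t : ℂ)‖ := by
  have h1 := cosh_bd hw.2.le
  have h2 := cos_bd hw.1.le
  have h3 := Real.one_sub_sq_div_two_le_cos (x := t)
  have h4 : t ^ 2 ≤ (1 / 2) ^ 2 := by
    rw [← sq_abs t]
    exact pow_le_pow_left₀ (abs_nonneg t) ht 2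
  have h5 : (2 * Complex.cos w + 2 * (Real.cos t : ℂ)).re =
      2 * (Real.cos w.re * Real.cosh w.im) + 2 * Real.cos t := by
    rw [← cos_re', Complex.add_re, Complex.mul_re, Complex.mul_re, Complex.ofReal_re,
      Complex.ofReal_im]
    norm_num
  refine le_trans ?_ (Complex.re_le_norm _)
  rw [h5]
  nlinarith [h1.1, h2]

/-- upper bound of a factor above the window -/
theorem fac_high {w : ℂ} (hw : D w) {t : ℝ} (ht : 19 / 10 ≤ t) (ht2 : t ≤ π) :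
    ‖2 * Complex.cos w + 2 * (Real.cos t : ℂ)‖ ≤ 2 := by
  have h1 := cosh_bd hw.2.le
  have h2 := cos_bd hw.1.le
  have h2' := Real.cos_le_one w.re
  have hct : Real.cos t ≤ -(11 / 50) := by
    have h3 := Real.one_sub_sq_div_two_le_cos (x := π - t)
    rw [Real.cos_pi_sub] at h3
    have h4 : (π - t) ^ 2 ≤ (1242 / 1000) ^ 2 := by
      apply pow_le_pow_left₀ (by linarith)
      have := Real.pi_lt_d4
      linarith
    norm_num at h4
    linarith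
  have hct2 := Real.neg_one_le_cos t
  have h5 : 2 * Complex.cos w + 2 * (Real.cos t : ℂ) =
      2 * (((Real.cos w.re * Real.cosh w.im + Real.cos t : ℝ) : ℂ) +
        ((-(Real.sin w.re * Real.sinh w.im) : ℝ) : ℂ) * Complex.I) := by
    rw [← cos_im']
    push_cast
    conv_lhs => rw [← Complex.re_add_im (Complex.cos w)]
    rw [cos_re']
    push_cast
    ring
  rw [h5, norm_mul]
  have h6 : ‖(2 : ℂ)‖ = 2 := by norm_num
  rw [h6, Complex.norm_add_mul_I]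
  have h7 : (Real.cos w.re * Real.cosh w.im + Real.cos t) ^ 2 ≤ (41 / 50) ^ 2 := by
    apply sq_le_sq'
    · nlinarith [h1.1, h2]
    · nlinarith [h1.2, h2, h1.1]
  have h8 : (-(Real.sin w.re * Real.sinh w.im)) ^ 2 ≤ (1 / 10 : ℝ) := by
    have e1 := Real.cosh_sq w.im
    have e2 := Real.sin_sq_le_one w.re
    have e3 : Real.sinh w.im ^ 2 ≤ 1 / 10 := by nlinarith [h1.1, h1.2]
    rw [neg_sq, mul_pow]
    calc Real.sin w.re ^ 2 * Real.sinh w.im ^ 2 ≤ 1 * (1 / 10) := by gcongr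
      _ = 1 / 10 := by norm_num
  have h9 : √((Real.cos w.re * Real.cosh w.im + Real.cos t) ^ 2 +
      (-(Real.sin w.re * Real.sinh w.im)) ^ 2) ≤ 1 := by
    rw [Real.sqrt_le_iff]
    norm_num at h7
    refine ⟨zero_le_one, ?_⟩
    rw [one_pow]
    linarith
  linarith

/-! ### One step -/

/-- the terms -/
noncomputable def tm (N d : ℕ) (ψ φ : ℂ) : ℝ := ‖Rp N d ψ * Rp N d φ / (Sd N d : ℂ) ^ 4‖

theorem tm_zero (N : ℕ) (ψ φ : ℂ) : tm N 0 ψ φ = 1 := by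
  unfold tm Rp Sd
  simp

theorem tm_succ (N d : ℕ) (ψ φ : ℂ) : tm N (d + 1) ψ φ = tm N d ψ φ *
    (‖2 * Complex.cos ψ + 2 * (Real.cos (phi N d) : ℂ)‖ *
    ‖2 * Complex.cos φ + 2 * (Real.cos (phi N d) : ℂ)‖ /
    |2 * Real.sin (π * (d + 1) / N)| ^ 4) := by
  unfold tm
  rw [Rp_succ, Rp_succ, Sd_succ]
  have e2 : Rp N d ψ * (2 * Complex.cos ψ + 2 * (Real.cos (phi N d) : ℂ)) *
      (Rp N d φ * (2 * Complex.cos φ + 2 * (Real.cos (phi N d) : ℂ))) /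
      ((Sd N d * (2 * Real.sin (π * (d + 1) / N)) : ℝ) : ℂ) ^ 4 =
      (Rp N d ψ * Rp N d φ / (Sd N d : ℂ) ^ 4) *
      ((2 * Complex.cos ψ + 2 * (Real.cos (phi N d) : ℂ)) *
      (2 * Complex.cos φ + 2 * (Real.cos (phi N d) : ℂ)) /
      ((2 * Real.sin (π * (d + 1) / N) : ℝ) : ℂ) ^ 4) := by
    rw [Complex.ofReal_mul, mul_pow, div_mul_div_comm]
    congr 1
    ring
  rw [e2, norm_mul]
  congr 1
  rw [norm_div, norm_mul, norm_pow, Complex.norm_real, Real.norm_eq_abs]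

theorem tm_nonneg (N d : ℕ) (ψ φ : ℂ) : 0 ≤ tm N d ψ φ := norm_nonneg _

/-- below the window the terms increase -/
theorem step_low {N d : ℕ} (hN : 1 ≤ N) (hd : 40 * (d + 1) ≤ N) {ψ φ : ℂ} (hψ : D ψ) (hφ : D φ) :
    tm N d ψ φ ≤ tm N (d + 1) ψ φ := by
  have hN' : (0 : ℝ) < N := by exact_mod_cast hN
  have hπ := Real.pi_pos
  have hπ2 := Real.pi_lt_d2
  have hd' : 40 * ((d : ℝ) + 1) ≤ N := by exact_mod_cast hd
  have h0 : 0 < π * (d + 1) / N := by positivity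
  have h1 : π * (d + 1) / N ≤ 1 / 10 := by
    rw [div_le_iff₀ hN']
    nlinarith
  have h2 : |phi N d| ≤ 1 / 2 := by
    unfold phi
    rw [abs_of_pos (by positivity), div_le_iff₀ hN']
    nlinarith
  have h3 : 0 < 2 * Real.sin (π * (d + 1) / N) := by
    have := Real.sin_pos_of_pos_of_lt_pi h0 (by linarith [Real.pi_gt_three])
    linarith
  have h4 : 2 * Real.sin (π * (d + 1) / N) ≤ 1 := by
    have := Real.sin_le h0.le
    linarith
  rw [tm_succ]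
  refine le_mul_of_one_le_right (tm_nonneg _ _ _ _) ?_
  rw [one_le_div (by positivity), abs_of_pos h3]
  have h5 := fac_low hψ h2
  have h6 := fac_low hφ h2
  calc (2 * Real.sin (π * (d + 1) / N)) ^ 4 ≤ 1 := pow_le_one₀ h3.le h4
    _ ≤ _ := by nlinarith

theorem tm_low {N : ℕ} (hN : 1 ≤ N) {d A : ℕ} (hdA : d ≤ A) (hA : 40 * A ≤ N) {ψ φ : ℂ}
    (hψ : D ψ) (hφ : D φ) : tm N d ψ φ ≤ tm N A ψ φ := by
  induction A, hdA using Nat.le_induction with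
  | base => exact le_rfl
  | succ A hdA ih =>
    exact (ih (by omega)).trans (step_low hN hA hψ hφ)

/-- above the window the terms decrease -/
theorem step_high {N d : ℕ} (hN : 1 ≤ N) (hd : 2 * (d + 1) ≤ N)
    (hdb : 31 / 100 * (N : ℝ) ≤ d + 1 / 2) {ψ φ : ℂ} (hψ : D ψ) (hφ : D φ) :
    tm N (d + 1) ψ φ ≤ tm N d ψ φ := by
  have hN' : (0 : ℝ) < N := by exact_mod_cast hN
  have hπ := Real.pi_pos
  have hπ2 := Real.pi_gt_d2
  have hd' : ((d : ℝ) + 1) * 2 ≤ N := by exact_mod_cast (by omega : (d + 1) * 2 ≤ N)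
  have h1 : 19 / 10 ≤ phi N d := by
    unfold phi
    rw [le_div_iff₀ hN']
    nlinarith
  have h2 : phi N d ≤ π := by
    unfold phi
    rw [div_le_iff₀ hN']
    nlinarith
  have h3 : √2 ≤ 2 * Real.sin (π * (d + 1) / N) := by
    have e1 : Real.sin (π / 4) ≤ Real.sin (π * (d + 1) / N) := by
      apply Real.sin_le_sin_of_le_of_le_pi_div_two (by linarith)
      · rw [div_le_div_iff₀ hN' (by norm_num)]
        nlinarith
      · rw [div_le_div_iff₀ (by norm_num) hN']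
        nlinarith
    rw [Real.sin_pi_div_four] at e1
    linarith
  have h4 : (4 : ℝ) ≤ |2 * Real.sin (π * (d + 1) / N)| ^ 4 := by
    have e1 : √2 ^ 4 = 4 := by
      rw [show (4 : ℕ) = 2 * 2 by norm_num, pow_mul, Real.sq_sqrt (by norm_num)]
      norm_num
    rw [← e1]
    apply pow_le_pow_left₀ (Real.sqrt_nonneg _)
    exact h3.trans (le_abs_self _)
  rw [tm_succ]
  refine mul_le_of_le_one_right (tm_nonneg _ _ _ _) ?_
  refine div_le_one_of_le₀ ?_ (by positivity)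
  have h5 := fac_high hψ h1 h2
  have h6 := fac_high hφ h1 h2
  refine le_trans ?_ h4
  calc _ ≤ (2 : ℝ) * 2 := mul_le_mul h5 h6 (norm_nonneg _) (by norm_num)
    _ = 4 := by norm_num

theorem tm_high {N : ℕ} (hN : 1 ≤ N) {B d : ℕ} (hBd : B ≤ d) (hd : 2 * d ≤ N)
    (hdb : 31 / 100 * (N : ℝ) ≤ B + 1 / 2) {ψ φ : ℂ} (hψ : D ψ) (hφ : D φ) :
    tm N d ψ φ ≤ tm N B ψ φ := by
  induction d, hBd using Nat.le_induction with
  | base => exact le_rfl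
  | succ d hBd ih =>
    refine (step_high hN hd ?_ hψ hφ).trans (ih (by omega))
    have : (B : ℝ) ≤ d := by exact_mod_cast hBd
    linarith

/-! ### From the window to the kernel -/

theorem tend_q {c : ℝ} (hc1 : 1 / 100 < c) (hc2 : c < 33 / 100) {p : ℂ × ℂ} (h1 : D p.1)
    (h2 : D p.2) {ψ φ : ℕ → ℂ} (hψ : Tendsto ψ atTop (𝓝 p.1)) (hφ : Tendsto φ atTop (𝓝 p.2))
    {C : ℕ → ℕ} (hC : Tendsto (fun N : ℕ => (C N : ℝ) / N) atTop (𝓝 c)) :
    (∀ᶠ N : ℕ in atTop, ((C N : ℕ) : ℂ) / N ∈ CR (1 / 100) (33 / 100) (1 / 20)) ∧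
    Tendsto (fun N : ℕ => (qf T (ψ N) (φ N) N (((C N : ℕ) : ℂ) / N)).re) atTop
      (𝓝 (TH p.1 p.2 c).re) := by
  have hmem : ((c : ℝ) : ℂ) ∈ OR (1 / 100) (33 / 100) (1 / 20) := by
    refine ⟨?_, ?_, ?_⟩
    · rw [Complex.ofReal_re]; linarith
    · rw [Complex.ofReal_re]; linarith
    · rw [Complex.ofReal_im, abs_zero]; norm_num
  have hBt : Tendsto (fun N : ℕ => ((C N : ℕ) : ℂ) / N) atTop (𝓝 (c : ℂ)) := by
    have h1 := (Complex.continuous_ofReal.tendsto c).comp hC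
    refine h1.congr fun N => ?_
    simp
  have hBmem : ∀ᶠ N : ℕ in atTop, ((C N : ℕ) : ℂ) / N ∈ OR (1 / 100) (33 / 100) (1 / 20) :=
    hBt.eventually_mem ((isOpen_OR _ _ _).mem_nhds hmem)
  refine ⟨hBmem.mono fun N hN => OR_sub_CR _ _ _ hN, ?_⟩
  refine (Complex.continuous_re.tendsto _).comp ?_
  have h3 := ((qf_unif T (by norm_num) (by norm_num) (mem_PA h1 h2) (h := 1 / 20)
    (a := 1 / 100) hψ hφ).mono (OR_sub_CR _ _ _)).tendstoLocallyUniformlyOn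
  refine h3.tendsto_comp ?_ hmem ?_
  · exact (TH_diff T (by norm_num) (by norm_num) (mem_PA h1 h2)).continuousOn _ hmem
  · exact tendsto_nhdsWithin_iff.2 ⟨hBt, hBmem⟩

theorem tm_exp {p : ℂ × ℂ} (h1 : D p.1) (h2 : D p.2) {N d : ℕ} (hN : 1 ≤ N)
    (hd : ((d : ℂ) / N) ∈ CR (1 / 100) (33 / 100) (1 / 20)) :
    tm N d p.1 p.2 = Real.exp (N * (qf T p.1 p.2 N ((d : ℂ) / N)).re) := by
  unfold tm
  rw [term_eq T (by norm_num) (by norm_num) (mem_PA h1 h2) hN hd, Complex.norm_exp]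
  rw [show ((N : ℂ) * qf T p.1 p.2 N ((d : ℂ) / N)).re =
    N * (qf T p.1 p.2 N ((d : ℂ) / N)).re by
      rw [← Complex.ofReal_natCast, Complex.re_ofReal_mul]]

include T in
/-- the terms below the window -/
theorem low_lim {p : ℂ × ℂ} (h1 : D p.1) (h2 : D p.2) {ψ φ : ℕ → ℂ}
    (hψ : Tendsto ψ atTop (𝓝 p.1)) (hφ : Tendsto φ atTop (𝓝 p.2)) (h3 : ∀ N, D (ψ N))
    (h4 : ∀ N, D (φ N)) : 0 ≤ (TH p.1 p.2 ((1 / 50 : ℝ) : ℂ)).re := by
  obtain ⟨g1, g2⟩ := tend_q T (c := 1 / 50) (by norm_num) (by norm_num) h1 h2 hψ hφ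
    (tend_ceil (a := 1 / 50) (by norm_num))
  refine ge_of_tendsto g2 ?_
  have hlarge : ∀ᶠ N : ℕ in atTop, (200 : ℝ) ≤ (N : ℝ) :=
    tendsto_natCast_atTop_atTop.eventually_ge_atTop _
  filter_upwards [g1, hlarge, eventually_ge_atTop 1] with N g3 g4 hN
  have hN' : (0 : ℝ) < N := by exact_mod_cast hN
  have hA : 40 * ⌈(1 / 50 : ℝ) * N⌉₊ ≤ N := by
    have e1 := Nat.ceil_lt_add_one (show 0 ≤ (1 / 50 : ℝ) * N by positivity)
    have e2 : (40 * ⌈(1 / 50 : ℝ) * N⌉₊ : ℝ) ≤ N := by linarith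
    exact_mod_cast e2
  have e3 := tm_low hN (Nat.zero_le _) hA (h3 N) (h4 N)
  rw [tm_zero, tm_exp T (p := (ψ N, φ N)) (h3 N) (h4 N) hN g3] at e3
  have e4 := Real.one_le_exp_iff.1 e3
  exact nonneg_of_mul_nonneg_right e4 hN'

/-- from the window to the kernel -/
theorem core {L : ℝ} {p : ℂ × ℂ} (h1 : D p.1) (h2 : D p.2) {ψ φ : ℕ → ℂ}
    (hψ : Tendsto ψ atTop (𝓝 p.1)) (hφ : Tendsto φ atTop (𝓝 p.2)) (h3 : ∀ N, D (ψ N))
    (h4 : ∀ N, D (φ N)) (hTa : (TH p.1 p.2 ((1 / 50 : ℝ) : ℂ)).re < L)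
    (hTb : (TH p.1 p.2 ((8 / 25 : ℝ) : ℂ)).re < L)
    (hwin : Tendsto (fun N : ℕ => Real.log ‖∑ d ∈ Ico (⌈(1 / 50 : ℝ) * N⌉₊) (⌊(8 / 25 : ℝ) * N⌋₊),
      Complex.exp (N * qf T (ψ N) (φ N) N ((d : ℂ) / N))‖ / N) atTop (𝓝 L)) :
    Tendsto (fun N : ℕ => Real.log ‖k0 N (ψ N) (φ N)‖ / N) atTop (𝓝 L) := by
  have hL : 0 < L := (low_lim T h1 h2 hψ hφ h3 h4).trans_lt hTa
  obtain ⟨κ, hκ, hκ1, hκ2⟩ : ∃ κ : ℝ, 0 < κ ∧ (TH p.1 p.2 ((1 / 50 : ℝ) : ℂ)).re < L - κ ∧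
      (TH p.1 p.2 ((8 / 25 : ℝ) : ℂ)).re < L - κ := by
    refine ⟨min ((L - (TH p.1 p.2 ((1 / 50 : ℝ) : ℂ)).re) / 2)
      ((L - (TH p.1 p.2 ((8 / 25 : ℝ) : ℂ)).re) / 2), lt_min (by linarith) (by linarith), ?_, ?_⟩
    · have := min_le_left ((L - (TH p.1 p.2 ((1 / 50 : ℝ) : ℂ)).re) / 2)
        ((L - (TH p.1 p.2 ((8 / 25 : ℝ) : ℂ)).re) / 2)
      linarith
    · have := min_le_right ((L - (TH p.1 p.2 ((1 / 50 : ℝ) : ℂ)).re) / 2)
        ((L - (TH p.1 p.2 ((8 / 25 : ℝ) : ℂ)).re) / 2)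
      linarith
  obtain ⟨gA1, gA2⟩ := tend_q T (c := 1 / 50) (by norm_num) (by norm_num) h1 h2 hψ hφ
    (tend_ceil (a := 1 / 50) (by norm_num))
  obtain ⟨gB1, gB2⟩ := tend_q T (c := 8 / 25) (by norm_num) (by norm_num) h1 h2 hψ hφ
    (tend_floor (b := 8 / 25) (by norm_num))
  have hlarge : ∀ᶠ N : ℕ in atTop, (200 : ℝ) ≤ (N : ℝ) :=
    tendsto_natCast_atTop_atTop.eventually_ge_atTop _
  -- the terms
  set W : ℕ → ℂ := fun N => ∑ d ∈ Ico (⌈(1 / 50 : ℝ) * N⌉₊) (⌊(8 / 25 : ℝ) * N⌋₊),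
      Complex.exp (N * qf T (ψ N) (φ N) N ((d : ℂ) / N)) with hW
  have hWeq : ∀ N : ℕ, 1 ≤ N → W N = ∑ d ∈ Ico (⌈(1 / 50 : ℝ) * N⌉₊) (⌊(8 / 25 : ℝ) * N⌋₊),
      Rp N d (ψ N) * Rp N d (φ N) / (Sd N d : ℂ) ^ 4 := by
    intro N hN
    have hN' : (0 : ℝ) < N := by exact_mod_cast hN
    rw [hW]
    refine Finset.sum_congr rfl fun d hd => ?_
    rw [Finset.mem_Ico] at hd
    have g1 : 1 / 50 * (N : ℝ) ≤ d := Nat.le_of_ceil_le hd.1
    have g2 : (d : ℝ) < 8 / 25 * N := Nat.lt_of_lt_floor hd.2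
    refine (term_eq T (a := 1 / 100) (b := 33 / 100) (h := 1 / 20) (by norm_num) (by norm_num)
      (p := (ψ N, φ N)) (mem_PA (h3 N) (h4 N)) hN ?_).symm
    rw [show ((d : ℂ) / N) = (((d : ℝ) / N : ℝ) : ℂ) by push_cast; rfl]
    refine ⟨?_, ?_, ?_⟩
    · rw [Complex.ofReal_re, le_div_iff₀ hN']
      nlinarith
    · rw [Complex.ofReal_re, div_le_iff₀ hN']
      nlinarith
    · rw [Complex.ofReal_im, abs_zero]; norm_num
  have hsub : ∀ N : ℕ, Ico (⌈(1 / 50 : ℝ) * N⌉₊) (⌊(8 / 25 : ℝ) * N⌋₊) ⊆ range ((N + 1) / 2) := by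
    intro N d hd
    rw [Finset.mem_Ico] at hd
    rw [Finset.mem_range]
    have g2 : (d : ℝ) < 8 / 25 * N := Nat.lt_of_lt_floor hd.2
    have g4 : (2 * d : ℝ) < N := by
      have hN0 : (0 : ℝ) < N := by
        by_contra hcon
        have h3 : (N : ℝ) = 0 := le_antisymm (not_lt.1 hcon) (Nat.cast_nonneg N)
        rw [h3, mul_zero] at g2
        exact absurd g2 (not_lt.2 (Nat.cast_nonneg d))
      nlinarith
    have g5 : 2 * d < N := by exact_mod_cast g4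
    omega
  set S : ℕ → ℂ := fun N => ∑ d ∈ range ((N + 1) / 2) \
      Ico (⌈(1 / 50 : ℝ) * N⌉₊) (⌊(8 / 25 : ℝ) * N⌋₊),
      Rp N d (ψ N) * Rp N d (φ N) / (Sd N d : ℂ) ^ 4 with hS
  have hk : ∀ N : ℕ, 1 ≤ N → k0 N (ψ N) (φ N) = W N + S N := by
    intro N hN
    rw [hWeq N hN, hS, k0, ← Finset.sum_sdiff (hsub N)]
    ring
  have hSb : ∀ᶠ N : ℕ in atTop, ‖S N‖ ≤ N * Real.exp (N * (L - κ)) := by
    filter_upwards [gA1, gB1, gA2.eventually_lt_const hκ1, gB2.eventually_lt_const hκ2, hlarge,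
      eventually_ge_atTop 1] with N m1 m2 m3 m4 m5 hN
    have hN' : (0 : ℝ) < N := by exact_mod_cast hN
    have hbound : ∀ d ∈ range ((N + 1) / 2) \ Ico (⌈(1 / 50 : ℝ) * N⌉₊) (⌊(8 / 25 : ℝ) * N⌋₊),
        ‖Rp N d (ψ N) * Rp N d (φ N) / (Sd N d : ℂ) ^ 4‖ ≤ Real.exp (N * (L - κ)) := by
      intro d hd
      rw [Finset.mem_sdiff, Finset.mem_range, Finset.mem_Ico, not_and_or, not_le, not_lt] at hd
      obtain ⟨hdN, hd⟩ := hd
      have hd2 : 2 * d ≤ N := by omega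
      change tm N d (ψ N) (φ N) ≤ _
      rcases hd with hd | hd
      · have hA : 40 * ⌈(1 / 50 : ℝ) * N⌉₊ ≤ N := by
          have e1 := Nat.ceil_lt_add_one (show 0 ≤ (1 / 50 : ℝ) * N by positivity)
          have e2 : (40 * ⌈(1 / 50 : ℝ) * N⌉₊ : ℝ) ≤ N := by linarith
          exact_mod_cast e2
        refine (tm_low hN hd.le hA (h3 N) (h4 N)).trans ?_
        rw [tm_exp T (p := (ψ N, φ N)) (h3 N) (h4 N) hN m1]
        exact Real.exp_le_exp.2 (mul_le_mul_of_nonneg_left m3.le hN'.le)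
      · have g2 : 8 / 25 * (N : ℝ) < (⌊(8 / 25 : ℝ) * N⌋₊ : ℝ) + 1 := Nat.lt_floor_add_one _
        have g3 : 31 / 100 * (N : ℝ) ≤ (⌊(8 / 25 : ℝ) * N⌋₊ : ℝ) + 1 / 2 := by linarith
        refine (tm_high hN hd hd2 g3 (h3 N) (h4 N)).trans ?_
        rw [tm_exp T (p := (ψ N, φ N)) (h3 N) (h4 N) hN m2]
        exact Real.exp_le_exp.2 (mul_le_mul_of_nonneg_left m4.le hN'.le)
    refine (norm_sum_le _ _).trans ((Finset.sum_le_card_nsmul _ _ _ hbound).trans ?_)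
    rw [nsmul_eq_mul]
    have e3 : (((range ((N + 1) / 2) \ Ico (⌈(1 / 50 : ℝ) * N⌉₊) (⌊(8 / 25 : ℝ) * N⌋₊)).card : ℕ) :
        ℝ) ≤ N := by
      have := Finset.card_le_card (Finset.sdiff_subset
        (s := range ((N + 1) / 2)) (t := Ico (⌈(1 / 50 : ℝ) * N⌉₊) (⌊(8 / 25 : ℝ) * N⌋₊)))
      rw [Finset.card_range] at this
      have h5 : (N + 1) / 2 ≤ N := by omega
      exact_mod_cast this.trans h5
    gcongr
  have hfin := absorb hL hκ hwin hSb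
  refine hfin.congr' ?_
  filter_upwards [eventually_ge_atTop 1] with N hN
  rw [hk N hN]

end Pool.Agent.N490.EK
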