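import Pool.Agent.N561.EK.Stm
import Pool.Agent.N490.EK.KA
import Pool.Agent.W588.HT.LapSum
import Pool.Agent.W583.HTSeq

/-!
# EK/7: asymptotics of the lower half of the kernel on `DD × DD`

Adapted from `Pool.Agent.N839.VS.Near`.
-/

set_option autoImplicit false

namespace Pool.Agent.N490.EK

open Filter Finset Topology Metric
open Pool.Agent.W711.HT Pool.Agent.N561
open Pool.Agent.N561.EK (POT THS K0M S_K0M DD)
open Pool.Agent.N839.VS (CR OR OR_sub_CR isOpen_OR tend_floor tend_ceil)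
open scoped Real

/-- the limit along sequences -/
theorem lim_seq (T : Dt) (P : POT) (H : THS) {ψ φ : ℕ → ℂ} {ψ₀ φ₀ : ℂ} (h1 : ψ₀ ∈ DD)
    (h2 : φ₀ ∈ DD) (h3 : ∀ N, ψ N ∈ DD) (h4 : ∀ N, φ N ∈ DD) (h5 : Tendsto ψ atTop (𝓝 ψ₀))
    (h6 : Tendsto φ atTop (𝓝 φ₀)) :
    Tendsto (fun N : ℕ => Real.log ‖k0 N (ψ N) (φ N)‖ / N) atTop (𝓝 (sg ψ₀ φ₀).re) := by
  obtain ⟨k1, k2, k3⟩ := H.pos ψ₀ h1 φ₀ h2
  have s0 := H.side ψ₀ h1 φ₀ h2 0 (by norm_num)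
  rw [Complex.ofReal_zero, zero_mul, add_zero, add_zero] at s0
  refine core T (p := (ψ₀, φ₀)) h1 h2 h5 h6 h3 h4 s0.1 s0.2 ?_
  exact Pool.Agent.W588.HT.lapsum0 (fun N => qf T (ψ N) (φ N) N) (TH ψ₀ φ₀)
    (OR (1 / 100) (33 / 100) (1 / 20)) (1 / 50) (8 / 25) (1 / 40) (dst ψ₀ φ₀)
    (fun N => ⌈(1 / 50 : ℝ) * N⌉₊) (fun N => ⌊(8 / 25 : ℝ) * N⌋₊) (isOpen_OR _ _ _)
    (Filter.eventually_atTop.2 ⟨1, fun N hN =>
      (qf_diff T (by norm_num) (by norm_num) (p := (ψ N, φ N)) (mem_PA (h3 N) (h4 N)) hN).mono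
        (OR_sub_CR _ _ _)⟩)
    (TH_diff T (by norm_num) (by norm_num) (p := (ψ₀, φ₀)) (mem_PA h1 h2))
    ((qf_unif T (by norm_num) (by norm_num) (p := (ψ₀, φ₀)) (mem_PA h1 h2) h5 h6).mono
      (OR_sub_CR _ _ _))
    (fun x y hx1 hx2 hy => by
      refine ⟨?_, ?_, ?_⟩
      · simp; linarith
      · simp; linarith
      · simp; linarith)
    (by norm_num) (tend_ceil (by norm_num)) (tend_floor (by norm_num)) (by linarith)
    (by linarith) (by linarith) (P.dcr ψ₀ h1 φ₀ h2).deriv (P.dneg ψ₀ h1 φ₀ h2)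
    (H.line ψ₀ h1 φ₀ h2) (H.side ψ₀ h1 φ₀ h2) (H.top ψ₀ h1 φ₀ h2)

theorem sg_pos (T : Dt) (H : THS) {ψ φ : ℂ} (h1 : ψ ∈ DD) (h2 : φ ∈ DD) : 0 < (sg ψ φ).re := by
  have s0 := H.side ψ h1 φ h2 0 (by norm_num)
  rw [Complex.ofReal_zero, zero_mul, add_zero, add_zero] at s0
  exact (low_lim T (p := (ψ, φ)) h1 h2 (ψ := fun _ => ψ) (φ := fun _ => φ) tendsto_const_nhds
    tendsto_const_nhds (fun _ => h1) (fun _ => h2)).trans_lt s0.1

/-- **EK/7** -/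
theorem k0m (hL : S_LAPL) : S_K0M := by
  intro P H V hV hVc ε hε
  obtain ⟨T⟩ := exists_Dt hL
  have hΦ : ContinuousOn (fun p : ℂ × ℂ => (sg p.1 p.2).re) (V ×ˢ V) :=
    Complex.continuous_re.comp_continuousOn (P.san.continuousOn.mono (Set.prod_mono hV hV))
  obtain ⟨m, hm, hm2⟩ : ∃ m : ℝ, 0 < m ∧ ∀ p ∈ V ×ˢ V, m ≤ (sg p.1 p.2).re := by
    rcases (V ×ˢ V).eq_empty_or_nonempty with he | hne
    · exact ⟨1, one_pos, fun p hp => by rw [he] at hp; exact hp.elim⟩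
    · obtain ⟨q, hq, hmin⟩ := (hVc.prod hVc).exists_isMinOn hne hΦ
      exact ⟨(sg q.1 q.2).re, sg_pos T H (hV hq.1) (hV hq.2), fun p hp => hmin hp⟩
  have hmain := Pool.Agent.W583.HT.seq (ℂ × ℂ) (V ×ˢ V) (hVc.prod hVc)
    (fun N p => Real.log ‖k0 N p.1 p.2‖ / N) (fun p => (sg p.1 p.2).re) hΦ (by
    intro p p₀ hp₀ hp htp
    have htp1 : Tendsto (fun N => (p N).1) atTop (𝓝 p₀.1) :=
      (continuous_fst.tendsto p₀).comp htp
    have htp2 : Tendsto (fun N => (p N).2) atTop (𝓝 p₀.2) :=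
      (continuous_snd.tendsto p₀).comp htp
    exact lim_seq T P H (hV hp₀.1) (hV hp₀.2) (fun N => hV (hp N).1) (fun N => hV (hp N).2)
      htp1 htp2)
  have hmin : 0 < min ε (m / 2) := lt_min hε (by positivity)
  filter_upwards [hmain _ hmin, eventually_gt_atTop 0] with N h1 h2 ψ hψ φ hφ'
  have hN : (0 : ℝ) < N := by exact_mod_cast h2
  have hpK : (ψ, φ) ∈ V ×ˢ V := ⟨hψ, hφ'⟩
  have h3 := h1 _ hpK
  have h4 := hm2 _ hpK
  simp only at h3 h4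
  constructor
  · intro hker
    rw [hker, norm_zero, Real.log_zero, zero_div, zero_sub, abs_neg] at h3
    have h5 := (le_abs_self _).trans (h3.trans (min_le_right _ _))
    linarith
  · have h5 := h3.trans (min_le_left _ _)
    have e1 : Real.log ‖k0 N ψ φ‖ - N * (sg ψ φ).re =
        N * (Real.log ‖k0 N ψ φ‖ / N - (sg ψ φ).re) := by
      field_simp
    rw [e1, abs_mul, abs_of_pos hN, mul_comm]
    gcongr

end Pool.Agent.N490.EK
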